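import Pool.Agent.N912.PY.Stm

set_option autoImplicit false

namespace Pool.Agent.N720.PY

open Pool.Agent.N912.PY
open scoped ComplexConjugate

lemma norm_one {N : ℕ} {f : ℕ → ℂ} (hf : CM N f) {n : ℕ} (hn : 0 < n) : ‖f n‖ = 1 :=
  Complex.norm_eq_one_of_pow_eq_one (hf.pow n hn) (by have := hf.pos; omega)

lemma fin_f {N : ℕ} {f : ℕ → ℂ} (hf : CM N f) : (f '' {n | 0 < n}).Finite := by
  classical
  refine Set.Finite.subset (Polynomial.nthRoots N (1:ℂ)).toFinset.finite_toSet ?_
  rintro z ⟨n, hn, rfl⟩
  have hN : 0 < N := hf.pos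
  simp only [Finset.mem_coe, Multiset.mem_toFinset]
  rw [Polynomial.mem_nthRoots hN]
  exact hf.pow n hn

lemma low {s : Set ℂ} (hs : s.Finite) (g : ℂ → ℝ) (h : ∀ z ∈ s, 0 < g z) :
    ∃ c : ℝ, 0 < c ∧ ∀ z ∈ s, c ≤ g z := by
  rcases s.eq_empty_or_nonempty with h0 | h0
  · exact ⟨1, one_pos, by simp [h0]⟩
  · obtain ⟨a, ha, hm⟩ := Set.exists_min_image s g hs h0
    exact ⟨g a, h a ha, hm⟩

lemma re_lt {z : ℂ} (h : ‖z‖ = 1) (h1 : z ≠ 1) : 0 < 1 - z.re := by
  have h2 : z.re ≤ 1 := h ▸ Complex.re_le_norm z
  rcases lt_or_eq_of_le h2 with h3 | h3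
  · linarith
  · exfalso
    apply h1
    have h4 : Complex.normSq z = 1 := by
      rw [Complex.normSq_eq_norm_sq, h]; norm_num
    rw [Complex.normSq_apply, h3] at h4
    have h5 : z.im = 0 := by nlinarith
    apply Complex.ext
    · simpa using h3
    · simpa using h5

theorem npf : S_NPF := by
  classical
  intro N f hf q χ hq
  have : NeZero q := ⟨by omega⟩
  refine ⟨⟨?_, ?_⟩, ?_⟩
  · intro n
    rcases Nat.eq_zero_or_pos n with h | h
    · subst h
      simp [hf.zero]
    · rw [norm_mul, norm_one hf h, one_mul]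
      exact DirichletCharacter.norm_le_one χ _
  · intro m n _
    rcases Nat.eq_zero_or_pos m with h | h
    · subst h
      simp [hf.zero]
    rcases Nat.eq_zero_or_pos n with h' | h'
    · subst h'
      simp [hf.zero]
    simp only [hf.mul m n h h', Nat.cast_mul, map_mul]
    ring
  · intro hP
    have hA : (f '' {n | 0 < n}).Finite := fin_f hf
    have hB : (Set.range χ).Finite := Set.finite_range _
    refine ⟨?_, ?_⟩
    · refine (Set.Finite.image2 (fun a b => a * b) hA hB).subset ?_
      rintro z ⟨p, hp, rfl⟩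
      exact Set.mem_image2_of_mem ⟨p, Nat.Prime.pos hp, rfl⟩ ⟨_, rfl⟩
    · intro q' χ' hq' hs
      have : NeZero q' := ⟨by omega⟩
      have : NeZero (q * q') := ⟨by positivity⟩
      apply hP
      have hC : (Set.range χ').Finite := Set.finite_range _
      -- the finite set of values
      set T : Set ℂ := {z | z ∈ Set.image2 (fun a b => a * conj b)
        (Set.image2 (fun a b => a * b) (f '' {n | 0 < n}) (Set.range χ)) (Set.range χ') ∧ ‖z‖ = 1 ∧ z ≠ 1}
        with hT
      have hTf : T.Finite := ((Set.Finite.image2 _ (Set.Finite.image2 _ hA hB) hC)).subset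
        (fun z hz => hz.1)
      obtain ⟨c, hc, hcT⟩ := low hTf (fun z => 1 - z.re) (fun z hz => re_lt hz.2.1 hz.2.2)
      refine ⟨q * q', (DirichletCharacter.changeLevel (Dvd.intro_left q rfl) χ') *
        (DirichletCharacter.changeLevel (Dvd.intro q' rfl) χ)⁻¹, by
          have := Nat.mul_pos hq hq'; omega, ?_⟩
      -- the majorant
      set F : ℕ → ℝ := fun p => (1 - (f p * χ (p : ZMod q) * (starRingEnd ℂ) (χ' ((p : ℕ) : ZMod q'))).re) / ((p : ℕ) : ℝ) with hF
      have hF0 : ∀ p : ℕ, p.Prime → 0 ≤ F p := by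
        intro p hp
        apply div_nonneg _ (Nat.cast_nonneg _)
        have h1 : (f p * χ (p : ZMod q) * (starRingEnd ℂ) (χ' ((p : ℕ) : ZMod q'))).re ≤ 1 := by
          refine (Complex.re_le_norm _).trans ?_
          rw [norm_mul, norm_mul, norm_one hf hp.pos, one_mul, RCLike.norm_conj]
          exact mul_le_one₀ (DirichletCharacter.norm_le_one χ _) (norm_nonneg _)
            (DirichletCharacter.norm_le_one χ' _)
        linarith
      have hs1 : Summable (fun p : ℕ => Set.indicator {p : ℕ | p.Prime} F p) := by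
        have : Summable (F ∘ ((↑) : {p : ℕ | p.Prime} → ℕ)) := hs
        exact (summable_subtype_iff_indicator (s := {p : ℕ | p.Prime}) (f := F)).1 this
      have hs2 : Summable (fun p : ℕ => if p ≤ q * q' then (1:ℝ) / p else 0) := by
        apply summable_of_finite_support
        refine (Set.finite_Iic (q * q')).subset ?_
        intro p hp
        by_contra h
        apply hp
        simp only [Set.mem_Iic] at h
        simp [h]
      have hs3 := (hs1.mul_left (1 / c)).add hs2
      refine Summable.of_nonneg_of_le (fun p => ?_) (fun p => ?_) hs3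
      · split_ifs <;> positivity
      · have hI : 0 ≤ Set.indicator {p : ℕ | p.Prime} F p := by
          by_cases hp : p.Prime
          · rw [Set.indicator_of_mem (show p ∈ {p : ℕ | p.Prime} from hp)]
            exact hF0 p hp
          · rw [Set.indicator_of_notMem (show p ∉ {p : ℕ | p.Prime} from hp)]
        have hJ : 0 ≤ (if p ≤ q * q' then (1:ℝ) / p else 0) := by split_ifs <;> positivity
        have hc' : 0 ≤ 1 / c := by positivity
        split_ifs with hb h3
        · have : 0 ≤ (1 / c) * Set.indicator {p : ℕ | p.Prime} F p := mul_nonneg hc' hI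
          linarith
        · -- p > q q'
          obtain ⟨hp, hne⟩ := hb
          have hp1 : 0 < p := hp.pos
          rw [Set.indicator_of_mem (show p ∈ {p : ℕ | p.Prime} from hp), add_zero]
          have hpq : Nat.Coprime p (q * q') := by
            rw [Nat.Prime.coprime_iff_not_dvd hp]
            intro hd
            have := Nat.le_of_dvd (Nat.mul_pos hq hq') hd
            omega
          have hu : IsUnit ((p : ℕ) : ZMod (q * q')) := (ZMod.isUnit_iff_coprime p (q * q')).2 hpq
          have hu1 : IsUnit ((p : ℕ) : ZMod q) :=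
            (ZMod.isUnit_iff_coprime p q).2 (Nat.Coprime.coprime_mul_right_right hpq)
          have hu2 : IsUnit ((p : ℕ) : ZMod q') :=
            (ZMod.isUnit_iff_coprime p q').2 (Nat.Coprime.coprime_mul_left_right hpq)
          have hn1 : ‖χ ((p : ℕ) : ZMod q)‖ = 1 := by
            obtain ⟨u, hu⟩ := hu1
            rw [← hu]; exact DirichletCharacter.unit_norm_eq_one χ u
          have hn2 : ‖χ' ((p : ℕ) : ZMod q')‖ = 1 := by
            obtain ⟨u, hu⟩ := hu2
            rw [← hu]; exact DirichletCharacter.unit_norm_eq_one χ' u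
          have hl1 : DirichletCharacter.changeLevel (Dvd.intro q' rfl : q ∣ q * q') χ ((p : ℕ) : ZMod (q * q'))
              = χ ((p : ℕ) : ZMod q) := by
            obtain ⟨u, hu⟩ := hu
            rw [← hu, DirichletCharacter.changeLevel_eq_cast_of_dvd, hu]
            simp
          have hl2 : DirichletCharacter.changeLevel (Dvd.intro_left q rfl : q' ∣ q * q') χ' ((p : ℕ) : ZMod (q * q'))
              = χ' ((p : ℕ) : ZMod q') := by
            obtain ⟨u, hu⟩ := hu
            rw [← hu, DirichletCharacter.changeLevel_eq_cast_of_dvd, hu]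
            simp
          have hne' : f p ≠ χ' ((p : ℕ) : ZMod q') * (χ ((p : ℕ) : ZMod q))⁻¹ := by
            intro h
            apply hne
            rw [h, MulChar.mul_apply, hl2, MulChar.inv_apply_eq_inv, hl1, Ring.inverse_eq_inv']
          have hz1 : f p * χ (p : ZMod q) * (starRingEnd ℂ) (χ' ((p : ℕ) : ZMod q')) ≠ 1 := by
            intro h
            apply hne'
            have h0 : χ ((p : ℕ) : ZMod q) ≠ 0 := by
              intro h0; rw [h0, norm_zero] at hn1; exact zero_ne_one hn1
            have h5 : (starRingEnd ℂ) (χ' ((p : ℕ) : ZMod q')) * χ' ((p : ℕ) : ZMod q') = 1 := by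
              rw [mul_comm, Complex.mul_conj, Complex.normSq_eq_norm_sq, hn2]; norm_num
            rw [eq_mul_inv_iff_mul_eq₀ h0]
            calc f p * χ (p : ZMod q) = (f p * χ (p : ZMod q)) *
                  ((starRingEnd ℂ) (χ' ((p : ℕ) : ZMod q')) * χ' ((p : ℕ) : ZMod q')) := by
                    rw [h5, mul_one]
              _ = (f p * χ (p : ZMod q) * (starRingEnd ℂ) (χ' ((p : ℕ) : ZMod q'))) *
                    χ' ((p : ℕ) : ZMod q') := by ring
              _ = χ' ((p : ℕ) : ZMod q') := by rw [h, one_mul]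
          have hmem : f p * χ (p : ZMod q) * (starRingEnd ℂ) (χ' ((p : ℕ) : ZMod q')) ∈ T := by
            refine ⟨Set.mem_image2_of_mem (Set.mem_image2_of_mem ⟨p, hp1, rfl⟩ ⟨_, rfl⟩) ⟨_, rfl⟩,
              ?_, hz1⟩
            rw [norm_mul, norm_mul, norm_one hf hp1, one_mul, RCLike.norm_conj, hn1, hn2, one_mul]
          have h6 := hcT _ hmem
          simp only [hF]
          have hp' : (0:ℝ) < p := by exact_mod_cast hp1
          rw [div_mul_div_comm, one_mul, div_le_div_iff₀ hp' (by positivity), one_mul]
          have := mul_le_mul_of_nonneg_right h6 hp'.le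
          simpa using this
        · have : 0 ≤ (1 / c) * Set.indicator {p : ℕ | p.Prime} F p := mul_nonneg hc' hI
          have h7 : (0:ℝ) ≤ 1 / p := by positivity
          linarith
        · have : 0 ≤ (1 / c) * Set.indicator {p : ℕ | p.Prime} F p := mul_nonneg hc' hI
          linarith

end Pool.Agent.N720.PY
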